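import Mathlib

set_option maxHeartbeats 400000

namespace Pool.Agent.Results.MP_59cc96_an.Yes
open Filter Topology

variable {𝕜 E : Type*} [RCLike 𝕜] [NormedAddCommGroup E] [NormedSpace 𝕜 E]

/-- The span of the first `n` vectors (the sequence is indexed from `0`). -/
def P (𝕜 : Type*) [RCLike 𝕜] [NormedSpace 𝕜 E] (x : ℕ → E) (n : ℕ) : Submodule 𝕜 E :=
  Submodule.span 𝕜 (x '' Set.Iio n)

/-- The sum `∑_{i<n} α i • x i` as an element of `P n`. -/
def part (x : ℕ → E) (α : ℕ → 𝕜) (n : ℕ) : P 𝕜 x n :=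
  ⟨∑ i ∈ Finset.range n, α i • x i, Submodule.sum_mem _ fun i hi =>
    Submodule.smul_mem _ _ (Submodule.subset_span ⟨i, Finset.mem_range.1 hi, rfl⟩)⟩

/-- Operational basis. -/
def Operational (𝕜 : Type*) [RCLike 𝕜] [NormedSpace 𝕜 E] (x : ℕ → E) : Prop :=
  Dense (Submodule.span 𝕜 (Set.range x) : Set E) ∧
  ∃ f : ℕ → E →L[𝕜] 𝕜, (∀ i j, f i (x j) = if i = j then 1 else 0) ∧
    ∃ v : ∀ n, P 𝕜 x n →ₗ[𝕜] P 𝕜 x n,
      ∀ y, Tendsto (fun n => (v n (part x (fun i => f i y) n) : E)) atTop (𝓝 y)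

/-- Generalized summation basis with respect to `v`. In (a) the vector `x i`, which lies in
`P n` once `n > i`, is written as the sum with coefficients `Pi.single i 1`. -/
def GenSummation (x : ℕ → E) (v : ∀ n, P 𝕜 x n →ₗ[𝕜] P 𝕜 x n) : Prop :=
  (∀ i, Tendsto (fun n => (v n (part x (Pi.single i 1) n) : E)) atTop (𝓝 (x i))) ∧
  ∀ y, ∃! α : ℕ → 𝕜, Tendsto (fun n => (v n (part x α n) : E)) atTop (𝓝 y)

theorem main (x : ℕ → E) (h : Operational 𝕜 x) :
    ∃ v : ∀ n, P 𝕜 x n →ₗ[𝕜] P 𝕜 x n, GenSummation x v := by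
  classical
  obtain ⟨-, f, hf, v, hv⟩ := h
  have coef : ∀ (α : ℕ → 𝕜) n i, i < n → f i (part x α n : E) = α i := by
    intro α n i hi
    change f i (∑ k ∈ Finset.range n, α k • x k) = _
    simp only [map_sum, map_smul, hf, smul_eq_mul, mul_ite, mul_one, mul_zero]
    rw [Finset.sum_ite_eq, if_pos (Finset.mem_range.2 hi)]
  let S : ∀ m, E →ₗ[𝕜] P 𝕜 x m := fun m =>
    { toFun := fun y => part x (fun i => f i y) m
      map_add' := fun y z => Subtype.ext (by
        simp only [part, map_add, add_smul, Finset.sum_add_distrib]; rfl)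
      map_smul' := fun c y => Subtype.ext (by
        simp only [part, map_smul, smul_eq_mul, mul_smul, RingHom.id_apply, ← Finset.smul_sum]
        rfl) }
  let W : ℕ → E →ₗ[𝕜] E := fun m => (P 𝕜 x m).subtype ∘ₗ v m ∘ₗ S m
  let j : ℕ → ℕ := fun m => (Nat.unpair m).1
  let c : ℕ → 𝕜 := fun n => if n % 2 = 1 then ((‖f (j (n / 2))‖ : ℝ) : 𝕜)⁻¹ else 0
  let V : ℕ → E →ₗ[𝕜] E := fun n => W (n / 2) +
    (c n • ((f (j (n / 2)) : E →ₗ[𝕜] 𝕜) ∘ₗ (LinearMap.id - W (n / 2)))).smulRight (x 0)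
  have hV : ∀ n y, V n y = W (n / 2) y + (c n * f (j (n / 2)) (y - W (n / 2) y)) • x 0 :=
    fun n y => rfl
  have mem : ∀ n y, V n y ∈ P 𝕜 x n := by
    intro n y
    rw [hV]
    refine Submodule.add_mem _ ?_ ?_
    · exact Submodule.span_mono (Set.image_mono (Set.Iio_subset_Iio (Nat.div_le_self n 2)))
        (v (n / 2) (S (n / 2) y)).2
    · by_cases h1 : n % 2 = 1
      · exact Submodule.smul_mem _ _ (Submodule.subset_span ⟨0, by simp; omega, rfl⟩)
      · simp [c, h1]
  let ω : (ℕ → 𝕜) → ℕ → E := fun α m => (v m (part x α m) : E)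
  have Wp : ∀ (α : ℕ → 𝕜) n, W (n / 2) (part x α n) = ω α (n / 2) := by
    intro α n
    have : S (n / 2) (part x α n) = part x α (n / 2) := by
      refine Subtype.ext ?_
      change ∑ i ∈ Finset.range (n / 2), f i (part x α n : E) • x i =
        ∑ i ∈ Finset.range (n / 2), α i • x i
      refine Finset.sum_congr rfl fun i hi => ?_
      have := Finset.mem_range.1 hi
      rw [coef α n i (by omega)]
    change (v (n / 2) (S (n / 2) (part x α n)) : E) = _
    rw [this]
  have Vp : ∀ (α : ℕ → 𝕜) n, V n (part x α n) =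
      ω α (n / 2) + (c n * (α (j (n / 2)) - f (j (n / 2)) (ω α (n / 2)))) • x 0 := by
    intro α n
    rw [hV, Wp, map_sub]
    by_cases h1 : n % 2 = 1
    · rw [coef α n _ (by have := Nat.unpair_left_le (n / 2); dsimp only [j]; omega)]
    · simp [c, h1]
  have half : Tendsto (fun n : ℕ => n / 2) atTop atTop :=
    tendsto_atTop.2 fun b => eventually_atTop.2 ⟨2 * b, fun n hn => by omega⟩
  have ex : ∀ y, Tendsto (fun n => V n (part x (fun i => f i y) n)) atTop (𝓝 y) := by
    intro y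
    simp only [Vp]
    have h1 : Tendsto (fun n => ω (fun i => f i y) (n / 2)) atTop (𝓝 y) := (hv y).comp half
    have h2 : Tendsto (fun n => ‖y - ω (fun i => f i y) (n / 2)‖) atTop (𝓝 0) := by
      simpa using (tendsto_const_nhds (x := y).sub h1).norm
    have h3 : Tendsto (fun n => c n * (f (j (n / 2)) y -
        f (j (n / 2)) (ω (fun i => f i y) (n / 2)))) atTop (𝓝 0) := by
      refine squeeze_zero_norm (fun n => ?_) h2
      rw [← map_sub, norm_mul]
      have a1 := (f (j (n / 2))).le_opNorm (y - ω (fun i => f i y) (n / 2))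
      have a2 : ‖c n‖ * ‖f (j (n / 2))‖ ≤ 1 := by
        dsimp only [c]
        split_ifs
        · rw [norm_inv, RCLike.norm_ofReal, abs_norm]; exact inv_mul_le_one
        · simp
      calc _ ≤ ‖c n‖ * (‖f (j (n / 2))‖ * ‖y - ω (fun i => f i y) (n / 2)‖) :=
            mul_le_mul_of_nonneg_left a1 (norm_nonneg _)
        _ ≤ _ := by rw [← mul_assoc]; exact mul_le_of_le_one_left (norm_nonneg _) a2
    simpa using h1.add (h3.smul_const (x 0))
  have un : ∀ y (α : ℕ → 𝕜), Tendsto (fun n => V n (part x α n)) atTop (𝓝 y) →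
      α = fun i => f i y := by
    intro y α hα
    funext i
    let q : ℕ → ℕ := fun k => Nat.pair i k
    have hq : ∀ a : ℕ, Tendsto (fun k => 2 * q k + a) atTop atTop := fun a =>
      tendsto_atTop.2 fun b => eventually_atTop.2 ⟨b, fun k hk => by
        have := Nat.right_le_pair i k; dsimp only [q]; omega⟩
    have e0 : ∀ k, V (2 * q k + 0) (part x α (2 * q k + 0)) = ω α (q k) := by
      intro k
      rw [Vp]
      have : (2 * q k + 0) / 2 = q k := by omega
      simp [c]
    have e1 : ∀ k, V (2 * q k + 1) (part x α (2 * q k + 1)) =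
        ω α (q k) + ((((‖f i‖ : ℝ) : 𝕜)⁻¹) * (α i - f i (ω α (q k)))) • x 0 := by
      intro k
      have a1 : (2 * q k + 1) / 2 = q k := by omega
      have a2 : (2 * q k + 1) % 2 = 1 := by omega
      have a3 : j (q k) = i := by simp [j, q]
      rw [Vp]
      simp only [c, a1, a2, a3, if_true]
    have h0 : Tendsto (fun k => ω α (q k)) atTop (𝓝 y) := by
      simpa only [Function.comp_def, e0] using hα.comp (hq 0)
    have h1 := hα.comp (hq 1)
    simp only [Function.comp_def, e1] at h1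
    have h2 := h0.add (((tendsto_const_nhds (x := α i).sub
      (((f i).continuous.tendsto y).comp h0)).const_mul (((‖f i‖ : ℝ) : 𝕜)⁻¹)).smul_const (x 0))
    have h3 := tendsto_nhds_unique h1 h2
    have h4 : (((‖f i‖ : ℝ) : 𝕜)⁻¹ * (α i - f i y)) • x 0 = 0 := by simpa using h3
    have x0 : x 0 ≠ 0 := fun e => by simpa [e] using hf 0 0
    have f0 : f i ≠ 0 := fun e => by simpa [e] using hf i i
    rcases smul_eq_zero.1 h4 with h5 | h5
    · rcases mul_eq_zero.1 h5 with h6 | h6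
      · simp [f0] at h6
      · exact sub_eq_zero.1 h6
    · exact absurd h5 x0
  refine ⟨fun n => ((V n).domRestrict _).codRestrict _ fun y => mem n y, fun i => ?_,
    fun y => ⟨_, ex y, fun α hα => un y α hα⟩⟩
  have : (Pi.single i 1 : ℕ → 𝕜) = fun k => f k (x i) := by
    funext k; rw [hf, Pi.single_apply]
  rw [this]
  exact ex (x i)

end Pool.Agent.Results.MP_59cc96_an.Yes

open Pool.Agent.Results.MP_59cc96_an.Yes in
theorem Pool.Agent.Results.MP_59cc96_an.Yes.result (𝕜 E : Type) [RCLike 𝕜]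
    [NormedAddCommGroup E] [NormedSpace 𝕜 E] [CompleteSpace E] (x : ℕ → E)
    (h : Operational 𝕜 x) : ∃ v : ∀ n, P 𝕜 x n →ₗ[𝕜] P 𝕜 x n, GenSummation x v :=
  main x h
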